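import Pool.Agent.W651.HI.Defs

set_option autoImplicit false

namespace Pool.Agent.W240.HI

open Set Topology Metric
open Pool.Agent.W651.HI

/-- open sets with disjoint closures -/
def Good {Y : Type} [TopologicalSpace Y] (U V : Set Y) : Prop :=
  IsOpen U ∧ IsOpen V ∧ Disjoint (closure U) (closure V)

theorem seq_exists {Y : Type} [TopologicalSpace Y] {ι : Type} [Countable ι]
    (R : ι → Set Y → Set Y → Prop)
    (step : ∀ i U V, Good U V → ∃ U' V', Good U' V' ∧ U ⊆ U' ∧ V ⊆ V' ∧ R i U' V')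
    (U₀ V₀ : Set Y) (h0 : Good U₀ V₀) :
    ∃ U V : ℕ → Set Y, U 0 = U₀ ∧ V 0 = V₀ ∧ (∀ n, Good (U n) (V n)) ∧
      (∀ n, U n ⊆ U (n + 1) ∧ V n ⊆ V (n + 1)) ∧ ∀ i, ∃ n, R i (U n) (V n) := by
  rcases isEmpty_or_nonempty ι with hι | hι
  · exact ⟨fun _ => U₀, fun _ => V₀, rfl, rfl, fun _ => h0, fun _ => ⟨Subset.rfl, Subset.rfl⟩,
      fun i => (hι.false i).elim⟩
  · obtain ⟨f, hf⟩ := exists_surjective_nat ι
    have step' : ∀ (i : ι) (s : {s : Set Y × Set Y // Good s.1 s.2}),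
        ∃ s' : {s : Set Y × Set Y // Good s.1 s.2}, s.1.1 ⊆ s'.1.1 ∧ s.1.2 ⊆ s'.1.2 ∧
          R i s'.1.1 s'.1.2 := by
      rintro i ⟨⟨U, V⟩, h⟩
      obtain ⟨U', V', h1, h2, h3, h4⟩ := step i U V h
      exact ⟨⟨(U', V'), h1⟩, h2, h3, h4⟩
    choose g hg1 hg2 hg3 using step'
    let s : ℕ → {s : Set Y × Set Y // Good s.1 s.2} := fun n =>
      Nat.rec ⟨(U₀, V₀), h0⟩ (fun n s => g (f n) s) n
    have hs : ∀ n, s (n + 1) = g (f n) (s n) := fun n => rfl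
    refine ⟨fun n => (s n).1.1, fun n => (s n).1.2, rfl, rfl, fun n => (s n).2, fun n => ?_,
      fun i => ?_⟩
    · simp only [hs]
      exact ⟨hg1 _ _, hg2 _ _⟩
    · obtain ⟨n, rfl⟩ := hf i
      refine ⟨n + 1, ?_⟩
      simp only [hs]
      exact hg3 _ _

/-- small open neighbourhoods with closure in a given open set -/
theorem small_nhd {Y : Type} [MetricSpace Y] {c : Y} {G : Set Y} (hG : IsOpen G) (hc : c ∈ G) :
    ∃ W : Set Y, IsOpen W ∧ c ∈ W ∧ closure W ⊆ G := by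
  obtain ⟨t, ht, htc, hts⟩ := exists_mem_nhds_isClosed_subset (hG.mem_nhds hc)
  exact ⟨interior t, isOpen_interior, mem_interior_iff_mem_nhds.2 ht,
    (closure_minimal interior_subset htc).trans hts⟩

/-- the property of a crooked step -/
def Crk {Y : Type} [TopologicalSpace Y] (O₁ P₁ O₂ P₂ U' V' : Set Y) : Prop :=
  ∃ X₁ X₂ X₃ : Set Y, IsClosed X₁ ∧ IsClosed X₂ ∧ IsClosed X₃ ∧ Disjoint X₁ X₃ ∧
    (U' ∪ V')ᶜ ⊆ X₁ ∪ X₂ ∪ X₃ ∧
    closure O₁ ∩ (U' ∪ V')ᶜ ⊆ X₁ ∧ closure O₂ ∩ (U' ∪ V')ᶜ ⊆ X₃ ∧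
    X₁ ∩ X₂ ∩ (U' ∪ V')ᶜ ⊆ P₂ ∧ X₂ ∩ X₃ ∩ (U' ∪ V')ᶜ ⊆ P₁

theorem main (hcrook : S_CROOK) : S_PART := by
  intro Y _ _ C U₀ V₀ hC hU₀ hV₀ hd₀
  have hbas := TopologicalSpace.isBasis_countableBasis Y
  have hbc := TopologicalSpace.countable_countableBasis Y
  let b := TopologicalSpace.countableBasis Y
  have : Countable b := hbc.to_subtype
  have : Countable C := hC.to_subtype
  let R : (C ⊕ (b × b × b × b)) → Set Y → Set Y → Prop := fun i U' V' =>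
    match i with
    | Sum.inl c => c.1 ∈ U' ∪ V'
    | Sum.inr (O₁, P₁, O₂, P₂) => closure O₁.1 ⊆ P₁.1 → closure O₂.1 ⊆ P₂.1 →
        Disjoint P₁.1 P₂.1 → Crk O₁.1 P₁.1 O₂.1 P₂.1 U' V'
  have step : ∀ i U V, Good U V → ∃ U' V', Good U' V' ∧ U ⊆ U' ∧ V ⊆ V' ∧ R i U' V' := by
    rintro (c | ⟨O₁, P₁, O₂, P₂⟩) U V ⟨hU, hV, hUV⟩
    · by_cases hcV : c.1 ∈ closure V
      · have hcU : c.1 ∈ (closure U)ᶜ := fun h => disjoint_left.1 hUV h hcV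
        obtain ⟨W, hW, hcW, hWG⟩ := small_nhd isClosed_closure.isOpen_compl hcU
        refine ⟨U, V ∪ W, ⟨hU, hV.union hW, ?_⟩, Subset.rfl, subset_union_left,
          Or.inr (Or.inr hcW)⟩
        rw [closure_union, disjoint_union_right]
        exact ⟨hUV, disjoint_left.2 fun x hx hx' => hWG hx' hx⟩
      · obtain ⟨W, hW, hcW, hWG⟩ := small_nhd isClosed_closure.isOpen_compl
          (show c.1 ∈ (closure V)ᶜ from hcV)
        refine ⟨U ∪ W, V, ⟨hU.union hW, hV, ?_⟩, subset_union_left, Subset.rfl,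
          Or.inl (Or.inr hcW)⟩
        rw [closure_union, disjoint_union_left]
        exact ⟨hUV, disjoint_left.2 fun x hx hx' => hWG hx hx'⟩
    · by_cases hcond : closure O₁.1 ⊆ P₁.1 ∧ closure O₂.1 ⊆ P₂.1 ∧ Disjoint P₁.1 P₂.1
      · obtain ⟨U', V', X₁, X₂, X₃, h1, h2, h3, h4, h5, h6⟩ := hcrook Y U V O₁.1 P₁.1 O₂.1 P₂.1
          hU hV hUV (hbas.isOpen O₁.2) (hbas.isOpen P₁.2) (hbas.isOpen O₂.2) (hbas.isOpen P₂.2)
          hcond.1 hcond.2.1 hcond.2.2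
        exact ⟨U', V', ⟨h1, h2, h5⟩, h3, h4, fun _ _ _ => ⟨X₁, X₂, X₃, h6⟩⟩
      · exact ⟨U, V, ⟨hU, hV, hUV⟩, Subset.rfl, Subset.rfl,
          fun h1 h2 h3 => absurd ⟨h1, h2, h3⟩ hcond⟩
  obtain ⟨U, V, hU0, hV0, hgood, hmono, hR⟩ := seq_exists R step U₀ V₀ ⟨hU₀, hV₀, hd₀⟩
  have hUm : Monotone U := monotone_nat_of_le_succ fun n => (hmono n).1
  have hVm : Monotone V := monotone_nat_of_le_succ fun n => (hmono n).2
  refine ⟨⋃ n, U n, ⋃ n, V n, isOpen_iUnion fun n => (hgood n).1,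
    isOpen_iUnion fun n => (hgood n).2.1, ?_, ?_, ?_, ?_, ?_⟩
  · rw [disjoint_left]
    intro x hx hx'
    obtain ⟨n, hn⟩ := mem_iUnion.1 hx
    obtain ⟨m, hm⟩ := mem_iUnion.1 hx'
    exact disjoint_left.1 (hgood (max n m)).2.2 (subset_closure (hUm (le_max_left _ _) hn))
      (subset_closure (hVm (le_max_right _ _) hm))
  · rw [← hU0]; exact subset_iUnion U 0
  · rw [← hV0]; exact subset_iUnion V 0
  · intro c hc
    obtain ⟨n, hn⟩ := hR (Sum.inl ⟨c, hc⟩)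
    have hn' : c ∈ U n ∪ V n := hn
    rcases hn' with h | h
    · exact Or.inl (mem_iUnion.2 ⟨n, h⟩)
    · exact Or.inr (mem_iUnion.2 ⟨n, h⟩)
  · intro A B hA hB hAc hBc hAM hBM hAB
    by_contra hno
    push Not at hno
    obtain ⟨a, haA, haB⟩ := not_subset.1 hno.1
    obtain ⟨x, hxB, hxA⟩ := not_subset.1 hno.2
    have hax : a ≠ x := fun h => hxA (h ▸ haA)
    obtain ⟨G₁, G₂, hG₁, hG₂, haG, hxG, hG⟩ := t2_separation hax
    obtain ⟨P₁, hP₁b, haP, hP₁⟩ := hbas.exists_subset_of_mem_open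
      (show a ∈ G₁ ∩ Bᶜ from ⟨haG, haB⟩) (hG₁.inter hB.isOpen_compl)
    obtain ⟨P₂, hP₂b, hxP, hP₂⟩ := hbas.exists_subset_of_mem_open
      (show x ∈ G₂ ∩ Aᶜ from ⟨hxG, hxA⟩) (hG₂.inter hA.isOpen_compl)
    obtain ⟨W₁, hW₁, haW, hW₁P⟩ := small_nhd (hbas.isOpen hP₁b) haP
    obtain ⟨W₂, hW₂, hxW, hW₂P⟩ := small_nhd (hbas.isOpen hP₂b) hxP
    obtain ⟨O₁, hO₁b, haO, hO₁⟩ := hbas.exists_subset_of_mem_open haW hW₁
    obtain ⟨O₂, hO₂b, hxO, hO₂⟩ := hbas.exists_subset_of_mem_open hxW hW₂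
    obtain ⟨n, hn⟩ := hR (Sum.inr (⟨O₁, hO₁b⟩, ⟨P₁, hP₁b⟩, ⟨O₂, hO₂b⟩, ⟨P₂, hP₂b⟩))
    have hn' : closure O₁ ⊆ P₁ → closure O₂ ⊆ P₂ →
        Disjoint P₁ P₂ → Crk O₁ P₁ O₂ P₂ (U n) (V n) := hn
    obtain ⟨X₁, X₂, X₃, h1, h2, h3, h13, hcov, hO1, hO2, h12, h23⟩ :=
      hn' ((closure_mono hO₁).trans hW₁P) ((closure_mono hO₂).trans hW₂P)
        (disjoint_left.2 fun y hy hy' => disjoint_left.1 hG (hP₁ hy).1 (hP₂ hy').1)
    have hsub : ∀ y, y ∈ ((⋃ n, U n) ∪ ⋃ n, V n)ᶜ → y ∈ (U n ∪ V n)ᶜ := by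
      intro y hy hy'
      refine hy ?_
      rcases hy' with h | h
      · exact Or.inl (mem_iUnion.2 ⟨n, h⟩)
      · exact Or.inr (mem_iUnion.2 ⟨n, h⟩)
    have hMA : A ⊆ (U n ∪ V n)ᶜ := fun y hy => hsub y (hAM hy)
    have hMB : B ⊆ (U n ∪ V n)ᶜ := fun y hy => hsub y (hBM hy)
    have haX : a ∈ X₁ := hO1 ⟨subset_closure haO, hMA haA⟩
    have hxX : x ∈ X₃ := hO2 ⟨subset_closure hxO, hMB hxB⟩
    have hAX : A ⊆ X₁ := by
      intro y hy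
      rcases hcov (hMA hy) with (h | h) | h
      · exact h
      all_goals
        exfalso
        obtain ⟨z, hzA, hz1, hz2⟩ := isPreconnected_closed_iff.1 hAc X₁ (X₂ ∪ X₃) h1 (h2.union h3)
          (fun w hw => by
            rcases hcov (hMA hw) with (h | h) | h
            · exact Or.inl h
            · exact Or.inr (Or.inl h)
            · exact Or.inr (Or.inr h)) ⟨a, haA, haX⟩ ⟨y, hy, by tauto⟩
        rcases hz2 with hz2 | hz2
        · exact (hP₂ (h12 ⟨⟨hz1, hz2⟩, hMA hzA⟩)).2 hzA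
        · exact disjoint_left.1 h13 hz1 hz2
    have hBX : B ⊆ X₃ := by
      intro y hy
      rcases hcov (hMB hy) with (h | h) | h
      rotate_left 2
      · exact h
      all_goals
        exfalso
        obtain ⟨z, hzB, hz1, hz2⟩ := isPreconnected_closed_iff.1 hBc X₃ (X₁ ∪ X₂) h3 (h1.union h2)
          (fun w hw => by
            rcases hcov (hMB hw) with (h | h) | h
            · exact Or.inr (Or.inl h)
            · exact Or.inr (Or.inr h)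
            · exact Or.inl h) ⟨x, hxB, hxX⟩ ⟨y, hy, by tauto⟩
        rcases hz2 with hz2 | hz2
        · exact disjoint_left.1 h13 hz2 hz1
        · exact (hP₁ (h23 ⟨⟨hz2, hz1⟩, hMB hzB⟩)).2 hzB
    obtain ⟨y, hyA, hyB⟩ := hAB
    exact disjoint_left.1 h13 (hAX hyA) (hBX hyB)

end Pool.Agent.W240.HI
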